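import Pool.Agent.W793.SCH.Stm

/-!
# Part KER of project SCH: the lattice Green function at large distances
-/

set_option autoImplicit false

open MeasureTheory Matrix Filter
open scoped Topology

namespace Pool.Agent.W369.SCH

open Pool.Agent.W793.SCH

/-- the orders of the differences -/
def ro {d : ℕ} (j l i : Fin d) : ℕ := (if i = j then 1 else 0) + (if i = l then 1 else 0)

/-- the shifted point -/
def wz {d : ℕ} (j l : Fin d) (z : Fin d → ℤ) (i : Fin d) : ℤ :=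
  z i - (if j = l then 0 else if i = l then 1 else 0)

theorem ro_lt {d : ℕ} (j l i : Fin d) : ro j l i < 3 := by
  unfold ro
  split_ifs <;> norm_num

theorem sum_ro {d : ℕ} (j l : Fin d) : ∑ i, (ro j l i + 1) = d + 2 := by
  unfold ro
  rw [Finset.sum_add_distrib, Finset.sum_add_distrib]
  simp
  omega

theorem prod_split {d : ℕ} (j : Fin d) (f : Fin d → ℝ) :
    ∏ i, f i = f j * ∏ i ∈ Finset.univ.erase j, f i := by
  rw [Finset.mul_prod_erase _ _ (Finset.mem_univ j)]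

/-- the heat kernel on the lattice -/
noncomputable def hG {d : ℕ} (t : ℝ) (y : Fin d → ℤ) : ℝ := ∏ i, hk t (y i)

theorem prod_hd {d : ℕ} (j l : Fin d) (t : ℝ) (z : Fin d → ℤ) :
    ∏ i, hd (ro j l i) t (wz j l z i) =
      hG t (z + Pi.single j 1) - hG t z -
        hG t (z + Pi.single j 1 - Pi.single l 1) + hG t (z - Pi.single l 1) := by
  by_cases hjl : j = l
  · subst hjl
    have key : ∀ y : Fin d → ℤ, (∀ i, i ≠ j → y i = z i) →
        hG t y = hk t (y j) * ∏ i ∈ Finset.univ.erase j, hk t (z i) := by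
      intro y hy
      unfold hG
      rw [prod_split j]
      congr 1
      refine Finset.prod_congr rfl fun i hi => ?_
      rw [hy i (Finset.mem_erase.1 hi).1]
    rw [key (z + Pi.single j 1) (by intro i hi; simp [hi]), key z (fun i _ => rfl),
      key (z + Pi.single j 1 - Pi.single j 1) (by intro i hi; simp),
      key (z - Pi.single j 1) (by intro i hi; simp [hi]), prod_split j]
    have e1 : ∏ i ∈ Finset.univ.erase j, hd (ro j j i) t (wz j j z i) =
        ∏ i ∈ Finset.univ.erase j, hk t (z i) := by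
      refine Finset.prod_congr rfl fun i hi => ?_
      have hij : i ≠ j := (Finset.mem_erase.1 hi).1
      simp [ro, wz, hd, hij]
    have e5 : hd (ro j j j) t (wz j j z j) =
        hk t (z j + 1) - 2 * hk t (z j) + hk t (z j - 1) := by
      simp [ro, wz, hd]
    have e6 : (z + Pi.single j 1 : Fin d → ℤ) j = z j + 1 := by simp
    have e7 : (z + Pi.single j 1 - Pi.single j 1 : Fin d → ℤ) j = z j := by simp
    have e8 : (z - Pi.single j 1 : Fin d → ℤ) j = z j - 1 := by simp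
    rw [e1, e5, e6, e7, e8]
    ring
  · have hlj : l ≠ j := fun h => hjl h.symm
    have hmem : ∀ i ∈ (Finset.univ.erase j).erase l, i ≠ l ∧ i ≠ j := by
      intro i hi
      have h1 := Finset.mem_erase.1 hi
      exact ⟨h1.1, (Finset.mem_erase.1 h1.2).1⟩
    have key0 : ∀ f : Fin d → ℝ, ∏ i, f i =
        f j * (f l * ∏ i ∈ (Finset.univ.erase j).erase l, f i) := by
      intro f
      rw [Finset.mul_prod_erase _ _ (Finset.mem_erase.2 ⟨hlj, Finset.mem_univ l⟩),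
        ← prod_split]
    have key : ∀ y : Fin d → ℤ, (∀ i, i ≠ l → i ≠ j → y i = z i) →
        hG t y = hk t (y j) * (hk t (y l) *
          ∏ i ∈ (Finset.univ.erase j).erase l, hk t (z i)) := by
      intro y hy
      unfold hG
      rw [key0]
      congr 2
      refine Finset.prod_congr rfl fun i hi => ?_
      rw [hy i (hmem i hi).1 (hmem i hi).2]
    rw [key (z + Pi.single j 1) (by intro i h1 h2; simp [h2]), key z (fun i _ _ => rfl),
      key (z + Pi.single j 1 - Pi.single l 1) (by intro i h1 h2; simp [h1, h2]),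
      key (z - Pi.single l 1) (by intro i h1 h2; simp [h1]), key0]
    have e1 : ∏ i ∈ (Finset.univ.erase j).erase l, hd (ro j l i) t (wz j l z i) =
        ∏ i ∈ (Finset.univ.erase j).erase l, hk t (z i) := by
      refine Finset.prod_congr rfl fun i hi => ?_
      obtain ⟨h1, h2⟩ := hmem i hi
      simp [ro, wz, hd, h1, h2]
    have e5 : hd (ro j l j) t (wz j l z j) = hk t (z j + 1) - hk t (z j) := by
      simp [ro, wz, hd, hjl]
    have e6 : hd (ro j l l) t (wz j l z l) = hk t (z l) - hk t (z l - 1) := by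
      simp [ro, wz, hd, hjl, hlj]
    have f1 : (z + Pi.single j 1 : Fin d → ℤ) j = z j + 1 := by simp
    have f2 : (z + Pi.single j 1 : Fin d → ℤ) l = z l := by simp [hlj]
    have f3 : (z + Pi.single j 1 - Pi.single l 1 : Fin d → ℤ) j = z j + 1 := by simp [hjl]
    have f4 : (z + Pi.single j 1 - Pi.single l 1 : Fin d → ℤ) l = z l - 1 := by simp [hlj]
    have f5 : (z - Pi.single l 1 : Fin d → ℤ) j = z j := by simp [hjl]
    have f6 : (z - Pi.single l 1 : Fin d → ℤ) l = z l - 1 := by simp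
    rw [e1, e5, e6, f1, f2, f3, f4, f5, f6]
    ring

/-- the second difference of the Green function as an integral -/
theorem dd_int (hI : S_GI) {d : ℕ} (hd3 : 3 ≤ d) (j l : Fin d) (z : Fin d → ℤ) :
    IntegrableOn (fun t : ℝ => ∏ i, hd (ro j l i) t (wz j l z i)) (Set.Ioi 0) ∧
      DD j l (green d) z = ∫ t in Set.Ioi (0 : ℝ), ∏ i, hd (ro j l i) t (wz j l z i) := by
  have hI' : ∀ y : Fin d → ℤ, IntegrableOn (fun t : ℝ => hG t y) (Set.Ioi 0) ∧
      green d y = ∫ t in Set.Ioi (0 : ℝ), hG t y := fun y => hI d hd3 y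
  have h1 := hI' (z + Pi.single j 1)
  have h2 := hI' z
  have h3 := hI' (z + Pi.single j 1 - Pi.single l 1)
  have h4 := hI' (z - Pi.single l 1)
  have hfun : (fun t : ℝ => ∏ i, hd (ro j l i) t (wz j l z i)) = fun t : ℝ =>
      hG t (z + Pi.single j 1) - hG t z -
        hG t (z + Pi.single j 1 - Pi.single l 1) + hG t (z - Pi.single l 1) := by
    funext t
    exact prod_hd j l t z
  have i12 : IntegrableOn (fun t : ℝ => hG t (z + Pi.single j 1) - hG t z) (Set.Ioi 0) :=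
    h1.1.sub h2.1
  have i123 : IntegrableOn (fun t : ℝ => hG t (z + Pi.single j 1) - hG t z -
      hG t (z + Pi.single j 1 - Pi.single l 1)) (Set.Ioi 0) := i12.sub h3.1
  refine ⟨?_, ?_⟩
  · rw [hfun]
    exact i123.add h4.1
  · rw [hfun]
    have a1 : ∫ t in Set.Ioi (0 : ℝ), (hG t (z + Pi.single j 1) - hG t z -
        hG t (z + Pi.single j 1 - Pi.single l 1) + hG t (z - Pi.single l 1)) =
        (∫ t in Set.Ioi (0 : ℝ), (hG t (z + Pi.single j 1) - hG t z -
        hG t (z + Pi.single j 1 - Pi.single l 1))) +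
          ∫ t in Set.Ioi (0 : ℝ), hG t (z - Pi.single l 1) :=
      integral_add i123 h4.1
    have a2 : ∫ t in Set.Ioi (0 : ℝ), (hG t (z + Pi.single j 1) - hG t z -
        hG t (z + Pi.single j 1 - Pi.single l 1)) =
        (∫ t in Set.Ioi (0 : ℝ), (hG t (z + Pi.single j 1) - hG t z)) -
        ∫ t in Set.Ioi (0 : ℝ), hG t (z + Pi.single j 1 - Pi.single l 1) :=
      integral_sub i12 h3.1
    have a3 : ∫ t in Set.Ioi (0 : ℝ), (hG t (z + Pi.single j 1) - hG t z) =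
        (∫ t in Set.Ioi (0 : ℝ), hG t (z + Pi.single j 1)) -
        ∫ t in Set.Ioi (0 : ℝ), hG t z :=
      integral_sub h1.1 h2.1
    rw [a1, a2, a3, ← h1.2, ← h2.2, ← h3.2, ← h4.2]
    rfl

/-- the scaled integrand -/
noncomputable def Fq {d : ℕ} (j l : Fin d) (z : Fin d → ℤ) (q : ℕ) (τ : ℝ) : ℝ :=
  ∏ i, ((q : ℝ) ^ (ro j l i + 1) * hd (ro j l i) ((q : ℝ) ^ 2 * τ) (wz j l z i))

theorem Fq_eq {d : ℕ} (j l : Fin d) (z : Fin d → ℤ) (q : ℕ) (τ : ℝ) :
    Fq j l z q τ = (q : ℝ) ^ (d + 2) *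
      ∏ i, hd (ro j l i) ((q : ℝ) ^ 2 * τ) (wz j l z i) := by
  unfold Fq
  rw [Finset.prod_mul_distrib, Finset.prod_pow_eq_pow_sum, sum_ro]

theorem int_Fq (hI : S_GI) {d : ℕ} (hd3 : 3 ≤ d) (j l : Fin d) (z : Fin d → ℤ) (q : ℕ)
    (hq : 1 ≤ q) : IntegrableOn (Fq j l z q) (Set.Ioi 0) ∧
      (q : ℝ) ^ d * DD j l (green d) z = ∫ τ in Set.Ioi (0 : ℝ), Fq j l z q τ := by
  have hq0 : (0 : ℝ) < (q : ℝ) := by exact_mod_cast hq
  have hq2 : (0 : ℝ) < (q : ℝ) ^ 2 := by positivity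
  obtain ⟨h1, h2⟩ := dd_int hI hd3 j l z
  have hfun : Fq j l z q = fun τ : ℝ => (q : ℝ) ^ (d + 2) *
      (fun t : ℝ => ∏ i, hd (ro j l i) t (wz j l z i)) ((q : ℝ) ^ 2 * τ) := by
    funext τ
    exact Fq_eq j l z q τ
  have h3 : IntegrableOn (fun τ : ℝ => (fun t : ℝ => ∏ i, hd (ro j l i) t (wz j l z i))
      ((q : ℝ) ^ 2 * τ)) (Set.Ioi 0) := by
    refine (integrableOn_Ioi_comp_mul_left_iff
      (fun t : ℝ => ∏ i, hd (ro j l i) t (wz j l z i)) 0 hq2).2 ?_
    rw [mul_zero]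
    exact h1
  refine ⟨?_, ?_⟩
  · rw [hfun]
    exact h3.const_mul _
  · rw [hfun, integral_const_mul,
      integral_comp_mul_left_Ioi (fun t : ℝ => ∏ i, hd (ro j l i) t (wz j l z i)) 0 hq2,
      mul_zero, ← h2, smul_eq_mul]
    rw [pow_add]
    field_simp

theorem wz_tendsto {d : ℕ} (j l : Fin d) (x : Fin d → ℝ) (z : ℕ → Fin d → ℤ)
    (hz : ∀ i, Tendsto (fun q : ℕ => (z q i : ℝ) / q) atTop (𝓝 (x i))) (i : Fin d) :
    Tendsto (fun q : ℕ => (wz j l (z q) i : ℝ) / q) atTop (𝓝 (x i)) := by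
  have h1 : Tendsto (fun q : ℕ => ((if j = l then 0 else if i = l then 1 else 0 : ℤ) : ℝ) / q)
      atTop (𝓝 0) := tendsto_const_div_atTop_nhds_zero_nat _
  have h2 := (hz i).sub h1
  rw [sub_zero] at h2
  refine h2.congr fun q => ?_
  unfold wz
  push_cast
  ring

theorem bound_v {c q τ : ℝ} (hc : 0 < c) (hq : 0 < q) (hτ : 0 < τ) {d : ℕ} (hd3 : 3 ≤ d) :
    (q / Real.sqrt (1 + q ^ 2 * τ) *
      ((1 + q ^ 2 * τ) / (1 + q ^ 2 * τ + c ^ 2 * q ^ 2))) ^ (d + 2) ≤
      (1 / c) ^ (d - 2) * (1 + 1 / c ^ 4) * (1 + τ ^ 2)⁻¹ := by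
  set y : ℝ := 1 + q ^ 2 * τ with hy
  have hy0 : 0 < y := by positivity
  have hs0 : 0 < Real.sqrt y := Real.sqrt_pos.2 hy0
  have hs2 : Real.sqrt y ^ 2 = y := Real.sq_sqrt hy0.le
  have hB0 : 0 < y + c ^ 2 * q ^ 2 := by positivity
  set v : ℝ := q / Real.sqrt y * (y / (y + c ^ 2 * q ^ 2)) with hv
  have hv0 : 0 ≤ v := by positivity
  have hv2 : v ^ 2 = q ^ 2 * y / (y + c ^ 2 * q ^ 2) ^ 2 := by
    rw [hv, mul_pow, div_pow, div_pow, hs2]
    field_simp
  have hτc : 0 < τ + c ^ 2 := by positivity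
  have hv3 : v ^ 2 ≤ 1 / (τ + c ^ 2) := by
    rw [hv2, div_le_div_iff₀ (by positivity) hτc]
    have e1 : q ^ 2 * (τ + c ^ 2) ≤ y + c ^ 2 * q ^ 2 := by
      rw [hy]
      nlinarith
    have e2 : y ≤ y + c ^ 2 * q ^ 2 := by
      have : 0 ≤ c ^ 2 * q ^ 2 := by positivity
      linarith
    have e3 : (q ^ 2 * (τ + c ^ 2)) * y ≤ (y + c ^ 2 * q ^ 2) * (y + c ^ 2 * q ^ 2) :=
      mul_le_mul e1 e2 hy0.le hB0.le
    nlinarith [e3]
  have hvc : v ≤ 1 / c := by
    have e1 : v ^ 2 ≤ (1 / c) ^ 2 := by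
      refine hv3.trans ?_
      rw [div_pow, one_pow, div_le_div_iff₀ hτc (by positivity)]
      nlinarith
    exact le_of_sq_le_sq e1 (by positivity)
  have h4 : v ^ 4 ≤ (1 + 1 / c ^ 4) * (1 + τ ^ 2)⁻¹ := by
    have e1 : v ^ 4 ≤ (1 / (τ + c ^ 2)) ^ 2 := by
      have : v ^ 4 = (v ^ 2) ^ 2 := by ring
      rw [this]
      exact pow_le_pow_left₀ (by positivity) hv3 2
    refine e1.trans ?_
    rw [div_pow, one_pow, ← div_eq_mul_inv, div_le_div_iff₀ (by positivity) (by positivity)]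
    have e2 : τ ^ 2 + c ^ 4 ≤ (τ + c ^ 2) ^ 2 := by
      have : 0 < τ * c ^ 2 := by positivity
      nlinarith
    have e3 : (1 + 1 / c ^ 4) * (τ ^ 2 + c ^ 4) ≤ (1 + 1 / c ^ 4) * (τ + c ^ 2) ^ 2 :=
      mul_le_mul_of_nonneg_left e2 (by positivity)
    refine le_trans ?_ e3
    have e4 : (1 + 1 / c ^ 4) * (τ ^ 2 + c ^ 4) = (1 + τ ^ 2) + (c ^ 4 + τ ^ 2 / c ^ 4) := by
      field_simp
      ring
    rw [e4, one_mul]
    have : 0 ≤ c ^ 4 + τ ^ 2 / c ^ 4 := by positivity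
    linarith
  have h5 : v ^ (d + 2) = v ^ (d - 2) * v ^ 4 := by
    rw [← pow_add]
    congr 1
    omega
  rw [h5, mul_assoc]
  exact mul_le_mul (pow_le_pow_left₀ hv0 hvc _) h4 (by positivity) (by positivity)

theorem bound_Fq {C : ℝ} (hC : 0 < C) {d : ℕ} (hd3 : 3 ≤ d)
    (hB : ∀ r < 3, ∀ t : ℝ, 0 ≤ t → ∀ n : ℤ,
      |hd r t n| ≤ C / Real.sqrt (1 + t) ^ (r + 1) * ((1 + t) / (1 + t + n ^ 2)) ^ (d + 2))
    (j l : Fin d) (z : Fin d → ℤ) (q : ℕ) (hq : 1 ≤ q) {c : ℝ} (hc : 0 < c) (i0 : Fin d)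
    (hw : c * q ≤ |(wz j l z i0 : ℝ)|) {τ : ℝ} (hτ : 0 < τ) :
    |Fq j l z q τ| ≤ C ^ d * ((1 / c) ^ (d - 2) * (1 + 1 / c ^ 4)) * (1 + τ ^ 2)⁻¹ := by
  have hq0 : (0 : ℝ) < (q : ℝ) := by exact_mod_cast hq
  set y : ℝ := 1 + (q : ℝ) ^ 2 * τ with hy
  have hy0 : 0 < y := by positivity
  have hs0 : 0 < Real.sqrt y := Real.sqrt_pos.2 hy0
  have hstep : ∀ i : Fin d, |(q : ℝ) ^ (ro j l i + 1) *
      hd (ro j l i) ((q : ℝ) ^ 2 * τ) (wz j l z i)| ≤
      C * ((q : ℝ) / Real.sqrt y) ^ (ro j l i + 1) *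
        (if i = i0 then (y / (y + c ^ 2 * q ^ 2)) ^ (d + 2) else 1) := by
    intro i
    have h1 := hB (ro j l i) (ro_lt j l i) ((q : ℝ) ^ 2 * τ) (by positivity) (wz j l z i)
    rw [← hy] at h1
    have h2 : ((y / (y + (wz j l z i : ℝ) ^ 2)) ^ (d + 2)) ≤
        (if i = i0 then (y / (y + c ^ 2 * q ^ 2)) ^ (d + 2) else 1) := by
      split_ifs with hi
      · subst hi
        refine pow_le_pow_left₀ (by positivity) ?_ _
        refine div_le_div_of_nonneg_left hy0.le (by positivity) ?_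
        have e1 : (c * q) ^ 2 ≤ |(wz j l z i : ℝ)| ^ 2 :=
          pow_le_pow_left₀ (by positivity) hw 2
        rw [sq_abs, mul_pow] at e1
        linarith
      · refine pow_le_one₀ (by positivity) ?_
        rw [div_le_one (by positivity)]
        have : 0 ≤ (wz j l z i : ℝ) ^ 2 := by positivity
        linarith
    rw [abs_mul, abs_of_nonneg (by positivity : (0 : ℝ) ≤ (q : ℝ) ^ (ro j l i + 1))]
    calc (q : ℝ) ^ (ro j l i + 1) * |hd (ro j l i) ((q : ℝ) ^ 2 * τ) (wz j l z i)|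
        ≤ (q : ℝ) ^ (ro j l i + 1) * (C / Real.sqrt y ^ (ro j l i + 1) *
          (y / (y + (wz j l z i : ℝ) ^ 2)) ^ (d + 2)) :=
          mul_le_mul_of_nonneg_left h1 (by positivity)
      _ = C * ((q : ℝ) / Real.sqrt y) ^ (ro j l i + 1) *
          (y / (y + (wz j l z i : ℝ) ^ 2)) ^ (d + 2) := by
          rw [div_pow]
          ring
      _ ≤ _ := mul_le_mul_of_nonneg_left h2 (by positivity)
  have hprod : |Fq j l z q τ| ≤ ∏ i : Fin d, (C * ((q : ℝ) / Real.sqrt y) ^ (ro j l i + 1) *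
        (if i = i0 then (y / (y + c ^ 2 * q ^ 2)) ^ (d + 2) else 1)) := by
    unfold Fq
    rw [Finset.abs_prod]
    exact Finset.prod_le_prod (fun i _ => abs_nonneg _) (fun i _ => hstep i)
  refine hprod.trans ?_
  rw [Finset.prod_mul_distrib, Finset.prod_mul_distrib, Finset.prod_pow_eq_pow_sum, sum_ro,
    Finset.prod_const, Finset.card_univ, Fintype.card_fin, Finset.prod_ite_eq',
    if_pos (Finset.mem_univ _), mul_assoc (C ^ d), ← mul_pow, mul_assoc (C ^ d)]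
  exact mul_le_mul_of_nonneg_left (bound_v hc hq0 hτ hd3) (by positivity)

/-- Part KER. -/
theorem t_KER (hI : S_GI) (hB : S_HB) (hL : S_HL) (hGG : S_GG) : S_KER := by
  intro d hd3 j l x hx z hz
  obtain ⟨C, hC, hB'⟩ := hB (d + 2)
  have hi0 : ∃ i0, x i0 ≠ 0 := by
    by_contra h
    push Not at h
    exact hx (funext h)
  obtain ⟨i0, hi0⟩ := hi0
  have hc : 0 < |x i0| / 2 := by
    have := abs_pos.2 hi0
    linarith
  have hw : ∀ᶠ q : ℕ in atTop, 1 ≤ q ∧ |x i0| / 2 * q ≤ |(wz j l (z q) i0 : ℝ)| := by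
    have h1 := (wz_tendsto j l x z hz i0).abs
    have h2 : |x i0| / 2 < |x i0| := by linarith
    filter_upwards [h1.eventually (lt_mem_nhds h2), eventually_ge_atTop 1] with q h3 h4
    refine ⟨h4, ?_⟩
    have hq0 : (0 : ℝ) < (q : ℝ) := by exact_mod_cast h4
    rw [abs_div, abs_of_pos hq0, lt_div_iff₀ hq0] at h3
    exact h3.le
  have hlim := (hGG d j l x hd3 hx).2
  have hmain : Tendsto (fun q : ℕ => ∫ τ in Set.Ioi (0 : ℝ), Fq j l (z q) q τ) atTop
      (𝓝 (∫ t in Set.Ioi (0 : ℝ), ∏ i, rd (ro j l i) t (x i))) := by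
    refine tendsto_integral_filter_of_dominated_convergence
      (fun τ => C ^ d * ((1 / (|x i0| / 2)) ^ (d - 2) * (1 + 1 / (|x i0| / 2) ^ 4)) *
        (1 + τ ^ 2)⁻¹) ?_ ?_ ?_ ?_
    · filter_upwards [eventually_ge_atTop 1] with q hq
      exact (int_Fq hI hd3 j l (z q) q hq).1.aestronglyMeasurable
    · filter_upwards [hw] with q hq
      refine (ae_restrict_iff' measurableSet_Ioi).2 (Filter.Eventually.of_forall fun τ hτ => ?_)
      rw [Real.norm_eq_abs]
      exact bound_Fq hC hd3 hB' j l (z q) q hq.1 hc i0 hq.2 hτ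
    · exact (integrable_inv_one_add_sq.const_mul _).integrableOn
    · refine (ae_restrict_iff' measurableSet_Ioi).2 (Filter.Eventually.of_forall fun τ hτ => ?_)
      unfold Fq
      refine tendsto_finsetProd _ fun i _ => ?_
      exact hL (ro j l i) (ro_lt j l i) τ (x i) hτ (fun q => wz j l (z q) i)
        (wz_tendsto j l x z hz i)
  have hlim' : ∫ t in Set.Ioi (0 : ℝ), ∏ i, rd (ro j l i) t (x i) = hess d j l x := hlim
  rw [hlim'] at hmain
  refine hmain.congr' ?_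
  filter_upwards [eventually_ge_atTop 1] with q hq
  exact (int_Fq hI hd3 j l (z q) q hq).2.symm

end Pool.Agent.W369.SCH
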